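import Pool.Agent.Work.MP_655153_co.Defs

/-!
# A beam detector of length less than `4.79986` consisting of three arcs
-/

open scoped ENNReal
open Complex

namespace Pool.Agent.Work.MP_655153_co

/-- The cross product of two plane vectors. -/
def cr (v w : ℂ) : ℝ := v.re * w.im - v.im * w.re

/-- The inner product of two plane vectors. -/
def ip (v w : ℂ) : ℝ := v.re * w.re + v.im * w.im

theorem tangent_sector {A B m : ℂ} (hA : ip A A = 1) (hB : ip B B = 1) (hm : ip m m = 1)
    (h1 : 0 ≤ cr A m) (h2 : 0 ≤ cr m B) (h3 : 0 < cr A B) (h4 : 0 ≤ 1 + ip A B) :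
    1 + ip A B ≤ ip m A + ip m B := by
  unfold ip cr at *
  obtain ⟨a, b⟩ := A
  obtain ⟨c, d⟩ := B
  obtain ⟨x, y⟩ := m
  simp only at *
  -- coefficients
  set lam := x * d - y * c with hlam
  set mu := a * y - b * x with hmu
  set k := a * d - b * c with hk
  have e1 : k * x = lam * a + mu * c := by rw [hk, hlam, hmu]; ring
  have e2 : k * y = lam * b + mu * d := by rw [hk, hlam, hmu]; ring
  have e3 : k ^ 2 = lam ^ 2 + mu ^ 2 + 2 * lam * mu * (a * c + b * d) := by
    have : k ^ 2 * (x * x + y * y) = (k * x) ^ 2 + (k * y) ^ 2 := by ring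
    rw [hm, e1, e2] at this
    have h5 : (lam * a + mu * c) ^ 2 + (lam * b + mu * d) ^ 2 =
        lam ^ 2 * (a * a + b * b) + mu ^ 2 * (c * c + d * d) + 2 * lam * mu * (a * c + b * d) := by
      ring
    rw [h5, hA, hB] at this
    linarith
  have e4 : a * c + b * d ≤ 1 := by nlinarith [sq_nonneg (a - c), sq_nonneg (b - d)]
  have e5 : k ≤ lam + mu := by
    have : k ^ 2 ≤ (lam + mu) ^ 2 := by nlinarith [mul_nonneg h2 h1]
    exact le_of_sq_le_sq this (by positivity)
  have e6 : k * (x * a + y * b + (x * c + y * d)) = (lam + mu) * (1 + (a * c + b * d)) := by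
    have : k * (x * a + y * b + (x * c + y * d)) = (k * x) * (a + c) + (k * y) * (b + d) := by ring
    rw [this, e1, e2]
    have h5 : (lam * a + mu * c) * (a + c) + (lam * b + mu * d) * (b + d) =
      lam * (a * a + b * b) + mu * (c * c + d * d) + (lam + mu) * (a * c + b * d) := by ring
    rw [h5, hA, hB]; ring
  have e7 : k * (1 + (a * c + b * d)) ≤ k * (x * a + y * b + (x * c + y * d)) := by
    rw [e6]
    exact mul_le_mul_of_nonneg_right e5 h4
  exact le_of_mul_le_mul_left e7 h3


theorem cos_upper {t : ℝ} (h0 : 0 ≤ t) (h1 : t ≤ 1) :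
    Real.cos t ≤ 1 - t^2/2 + t^4/24 - t^6/720 + t^8/40320 + t^10/3000000 := by
  have hn : ‖(t : ℂ) * I‖ ≤ 1 := by
    rw [norm_mul, Complex.norm_I, mul_one, Complex.norm_real, Real.norm_eq_abs, abs_of_nonneg h0]
    exact h1
  have h := Complex.exp_bound hn (n := 10) (by norm_num)
  have h2 := (Complex.abs_re_le_norm _).trans h
  have hnorm : ‖(t : ℂ) * I‖ = t := by
    rw [norm_mul, Complex.norm_I, mul_one, Complex.norm_real, Real.norm_eq_abs, abs_of_nonneg h0]
  rw [hnorm, Complex.sub_re, Complex.exp_ofReal_mul_I_re] at h2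
  have h3 : (∑ m ∈ Finset.range 10, ((t : ℂ) * I) ^ m / (m.factorial : ℂ)).re =
      1 - t^2/2 + t^4/24 - t^6/720 + t^8/40320 := by
    have e2 : ((t:ℂ) * I)^2 = ((-(t^2) : ℝ) : ℂ) := by rw [mul_pow, I_sq]; push_cast; ring
    have e3 : ((t:ℂ) * I)^3 = ((-(t^3) : ℝ) : ℂ) * I := by
      rw [pow_succ, e2]; push_cast; ring
    have e4 : ((t:ℂ) * I)^4 = ((t^4 : ℝ) : ℂ) := by
      have : ((t:ℂ) * I)^4 = (((t:ℂ) * I)^2)^2 := by ring
      rw [this, e2]; push_cast; ring
    have e5 : ((t:ℂ) * I)^5 = ((t^5 : ℝ) : ℂ) * I := by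
      rw [pow_succ, e4]; push_cast; ring
    have e6 : ((t:ℂ) * I)^6 = ((-(t^6) : ℝ) : ℂ) := by
      have : ((t:ℂ) * I)^6 = (((t:ℂ) * I)^2)^3 := by ring
      rw [this, e2]; push_cast; ring
    have e7 : ((t:ℂ) * I)^7 = ((-(t^7) : ℝ) : ℂ) * I := by
      rw [pow_succ, e6]; push_cast; ring
    have e8 : ((t:ℂ) * I)^8 = ((t^8 : ℝ) : ℂ) := by
      have : ((t:ℂ) * I)^8 = (((t:ℂ) * I)^2)^4 := by ring
      rw [this, e2]; push_cast; ring
    have e9 : ((t:ℂ) * I)^9 = ((t^9 : ℝ) : ℂ) * I := by
      rw [pow_succ, e8]; push_cast; ring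
    simp only [Finset.sum_range_succ, Finset.sum_range_zero, e2, e3, e4, e5, e6, e7, e8, e9,
      Complex.add_re, Nat.factorial]
    norm_num [Complex.div_re, Complex.normSq, ← Complex.ofReal_pow]
    ring
  rw [h3] at h2
  have h4 := (abs_le.mp h2).2
  have h5 : t ^ 10 * (((10:ℕ).succ : ℝ) * (((Nat.factorial 10 : ℕ) : ℝ) * ((10:ℕ):ℝ))⁻¹) ≤
      t^10/3000000 := by
    have : (0:ℝ) ≤ t^10 := by positivity
    have e : (((10:ℕ).succ : ℝ) * (((Nat.factorial 10 : ℕ) : ℝ) * ((10:ℕ):ℝ))⁻¹) ≤ 1/3000000 := by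
      norm_num [Nat.factorial]
    calc _ ≤ t^10 * (1/3000000) := mul_le_mul_of_nonneg_left e this
      _ = _ := by ring
  linarith

theorem cos_a0 : Real.cos (2378003/1000000) ≤ -67440/93361 := by
  have h := cos_upper (t := 2378003/4000000) (by norm_num) (by norm_num)
  set c := Real.cos (2378003/4000000) with hc
  have hpos : 0 ≤ c := Real.cos_nonneg_of_neg_pi_div_two_le_of_le (by linarith [Real.pi_gt_three]) (by linarith [Real.pi_gt_three])
  have hb : c ≤ 8284283/10000000 := h.trans (by norm_num)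
  have e1 : Real.cos (2378003/1000000) = 2*(2*c^2-1)^2-1 := by
    rw [show (2378003/1000000 : ℝ) = 2*(2*(2378003/4000000)) by norm_num, Real.cos_two_mul, Real.cos_two_mul]
  have hlow : 0 ≤ 2*c^2-1 := by
    have := Real.cos_two_mul (2378003/4000000)
    rw [← hc] at this
    rw [← this]
    exact Real.cos_nonneg_of_neg_pi_div_two_le_of_le (by linarith [Real.pi_gt_three]) (by linarith [Real.pi_gt_three])
  rw [e1]
  have h2 : 2*c^2-1 ≤ 2*(8284283/10000000)^2-1 := by nlinarith
  have h3 : (2*c^2-1)^2 ≤ (2*(8284283/10000000)^2-1)^2 := by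
    exact pow_le_pow_left₀ hlow h2 2
  have h4 : (2:ℝ)*(2*(8284283/10000000)^2-1)^2 - 1 ≤ -67440/93361 := by norm_num
  linarith


/-! ### The points of the detector -/

/-- first point of contact of the bow with the circle -/
noncomputable def pT1 : ℂ := ⟨-39/89, 80/89⟩
/-- last point of contact of the bow with the circle -/
noncomputable def pT2 : ℂ := ⟨-320/1049, -999/1049⟩
noncomputable def pA1 : ℂ := ⟨33/65, 56/65⟩
noncomputable def pA2 : ℂ := ⟨1, 0⟩
noncomputable def pA3 : ℂ := ⟨351/449, -280/449⟩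
/-- the ends of the bow -/
noncomputable def pP : ℂ := ⟨3/67, 76/67⟩
noncomputable def pQ : ℂ := ⟨281/799, -929/799⟩
/-- the outer ends of the two segments -/
noncomputable def pX : ℂ := ⟨1, 4/7⟩
noncomputable def pC : ℂ := ⟨1, -7/20⟩
/-- the inner ends of the two segments -/
noncomputable def pM : ℂ := ⟨159529/1177726, 1073285/2355452⟩
noncomputable def pN : ℂ := ⟨8359/11985, -6651/27965⟩

/-- the angle of the circular part of the bow -/
noncomputable def al : ℝ := Complex.arg ⟨-67440/93361, 64561/93361⟩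

theorem norm_e : ‖(⟨-67440/93361, 64561/93361⟩ : ℂ)‖ = 1 := by
  have h : ‖(⟨-67440/93361, 64561/93361⟩ : ℂ)‖ ^ 2 = 1 := by
    rw [Complex.sq_norm, Complex.normSq_mk]; norm_num
  exact (pow_eq_one_iff_of_nonneg (norm_nonneg _) two_ne_zero).1 h

theorem exp_al : Complex.exp (al * I) = ⟨-67440/93361, 64561/93361⟩ := by
  have := Complex.norm_mul_exp_arg_mul_I ⟨-67440/93361, 64561/93361⟩
  rw [norm_e] at this
  simpa [al] using this

theorem cos_al : Real.cos al = -67440/93361 := by
  have := congrArg Complex.re exp_al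
  rwa [Complex.exp_ofReal_mul_I_re] at this

theorem sin_al : Real.sin al = 64561/93361 := by
  have := congrArg Complex.im exp_al
  rwa [Complex.exp_ofReal_mul_I_im] at this

theorem al_pos : 0 < al := by
  have h0 : 0 ≤ al := by
    rw [al, Complex.arg_nonneg_iff]; norm_num
  rcases h0.lt_or_eq with h | h
  · exact h
  · exfalso
    have := sin_al
    rw [← h, Real.sin_zero] at this
    norm_num at this

theorem al_lt_pi : al < Real.pi := by
  rcases (Complex.arg_le_pi ⟨-67440/93361, 64561/93361⟩).lt_or_eq with h | h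
  · exact h
  · exfalso
    have := sin_al
    rw [show al = Real.pi from h, Real.sin_pi] at this
    norm_num at this

theorem al_le : al ≤ 2378003/1000000 := by
  by_contra h
  push Not at h
  have h1 : Real.cos al < Real.cos (2378003/1000000) :=
    Real.cos_lt_cos_of_nonneg_of_le_pi (by norm_num) al_lt_pi.le h
  rw [cos_al] at h1
  linarith [cos_a0]

theorem T1_exp : pT1 * Complex.exp (al * I) = pT2 := by
  rw [exp_al]
  apply Complex.ext <;> simp [pT1, pT2] <;> norm_num

/-! ### The bow -/

/-- the projection of `ℝ` onto `[0, al]` -/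
noncomputable def cl (s : ℝ) : ℝ := max 0 (min s al)

/-- The bow: the part of the circle from `pT1` to `pT2`, continued by its tangents. -/
noncomputable def bow (s : ℝ) : ℂ :=
  pT1 * Complex.exp (cl s * I) * (1 + ((s - cl s : ℝ) : ℂ) * I)

theorem bow_left {s : ℝ} (h : s ≤ 0) : bow s = pT1 * (1 + (s : ℂ) * I) := by
  have : cl s = 0 := by
    rw [cl, max_eq_left]
    exact (min_le_left _ _).trans h
  simp [bow, this]

theorem bow_mid {s : ℝ} (h : 0 ≤ s) (h' : s ≤ al) : bow s = pT1 * Complex.exp (s * I) := by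
  have : cl s = s := by
    rw [cl, min_eq_left h', max_eq_right h]
  simp [bow, this]

theorem bow_right {s : ℝ} (h : al ≤ s) : bow s = pT2 * (1 + ((s - al : ℝ) : ℂ) * I) := by
  have : cl s = al := by
    rw [cl, min_eq_right h, max_eq_right al_pos.le]
  rw [bow, this, T1_exp]

theorem bow_cont : Continuous bow := by
  have : Continuous cl := by unfold cl; fun_prop
  unfold bow
  fun_prop

theorem norm_T1 : ‖pT1‖ = 1 := by
  have h : ‖pT1‖ ^ 2 = 1 := by
    rw [pT1, Complex.sq_norm, Complex.normSq_mk]; norm_num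
  exact (pow_eq_one_iff_of_nonneg (norm_nonneg _) two_ne_zero).1 h

theorem norm_T2 : ‖pT2‖ = 1 := by
  have h : ‖pT2‖ ^ 2 = 1 := by
    rw [pT2, Complex.sq_norm, Complex.normSq_mk]; norm_num
  exact (pow_eq_one_iff_of_nonneg (norm_nonneg _) two_ne_zero).1 h

theorem normSq_left {s : ℝ} (h : s ≤ 0) : ‖bow s‖ ^ 2 = 1 + s ^ 2 := by
  rw [bow_left h, norm_mul, norm_T1, one_mul, Complex.sq_norm, Complex.normSq_apply]
  simp; ring

theorem norm_mid {s : ℝ} (h : 0 ≤ s) (h' : s ≤ al) : ‖bow s‖ ^ 2 = 1 := by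
  rw [bow_mid h h', norm_mul, norm_T1, Complex.norm_exp_ofReal_mul_I]; norm_num

theorem normSq_right {s : ℝ} (h : al ≤ s) : ‖bow s‖ ^ 2 = 1 + (s - al) ^ 2 := by
  rw [bow_right h, norm_mul, norm_T2, one_mul, Complex.sq_norm, Complex.normSq_apply]
  simp; ring

theorem im_left {s : ℝ} (h : s ≤ 0) : 0 < (bow s).im := by
  rw [bow_left h]
  simp [pT1]
  nlinarith

theorem im_right {s : ℝ} (h : al ≤ s) : (bow s).im < 0 := by
  rw [bow_right h]
  simp [pT2]
  nlinarith

theorem bow_inj : Function.Injective bow := by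
  intro s t hst
  have hn : ‖bow s‖ ^ 2 = ‖bow t‖ ^ 2 := by rw [hst]
  have hi : (bow s).im = (bow t).im := by rw [hst]
  have hal := al_pos
  rcases le_total s 0 with hs | hs
  · rcases le_total t 0 with ht | ht
    · rw [normSq_left hs, normSq_left ht] at hn
      nlinarith
    · rcases le_total t al with ht' | ht'
      · rw [normSq_left hs, norm_mid ht ht'] at hn
        have hs0 : s = 0 := by nlinarith [sq_nonneg s]
        subst hs0
        rw [bow_mid le_rfl hal.le, bow_mid ht ht'] at hst
        have h0 : pT1 ≠ 0 := by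
          intro h
          have := norm_T1
          rw [h, norm_zero] at this
          norm_num at this
        have h1 := mul_left_cancel₀ h0 hst
        have h2 := congrArg Complex.re h1
        rw [Complex.exp_ofReal_mul_I_re, Complex.exp_ofReal_mul_I_re] at h2
        exact Real.injOn_cos ⟨le_rfl, Real.pi_pos.le⟩ ⟨ht, ht'.trans al_lt_pi.le⟩ h2
      · linarith [im_left hs, im_right ht']
  · rcases le_total s al with hs' | hs'
    · rcases le_total t 0 with ht | ht
      · rw [norm_mid hs hs', normSq_left ht] at hn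
        have ht0 : t = 0 := by nlinarith [sq_nonneg t]
        subst ht0
        rw [bow_mid le_rfl hal.le, bow_mid hs hs'] at hst
        have h0 : pT1 ≠ 0 := by
          intro h
          have := norm_T1
          rw [h, norm_zero] at this
          norm_num at this
        have h1 := mul_left_cancel₀ h0 hst
        have h2 := congrArg Complex.re h1
        rw [Complex.exp_ofReal_mul_I_re, Complex.exp_ofReal_mul_I_re] at h2
        exact Real.injOn_cos ⟨hs, hs'.trans al_lt_pi.le⟩ ⟨le_rfl, Real.pi_pos.le⟩ h2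
      · rcases le_total t al with ht' | ht'
        · rw [bow_mid hs hs', bow_mid ht ht'] at hst
          have h0 : pT1 ≠ 0 := by
            intro h
            have := norm_T1
            rw [h, norm_zero] at this
            norm_num at this
          have h1 := mul_left_cancel₀ h0 hst
          have h2 := congrArg Complex.re h1
          rw [Complex.exp_ofReal_mul_I_re, Complex.exp_ofReal_mul_I_re] at h2
          exact Real.injOn_cos ⟨hs, hs'.trans al_lt_pi.le⟩ ⟨ht, ht'.trans al_lt_pi.le⟩ h2
        · rw [norm_mid hs hs', normSq_right ht'] at hn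
          have ht0 : t = al := by nlinarith [sq_nonneg (t - al)]
          subst ht0
          rw [bow_mid hs hs', bow_mid ht ht'] at hst
          have h0 : pT1 ≠ 0 := by
            intro h
            have := norm_T1
            rw [h, norm_zero] at this
            norm_num at this
          have h1 := mul_left_cancel₀ h0 hst
          have h2 := congrArg Complex.re h1
          rw [Complex.exp_ofReal_mul_I_re, Complex.exp_ofReal_mul_I_re] at h2
          exact Real.injOn_cos ⟨hs, hs'.trans al_lt_pi.le⟩ ⟨ht, al_lt_pi.le⟩ h2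
    · rcases le_total t 0 with ht | ht
      · linarith [im_left ht, im_right hs']
      · rcases le_total t al with ht' | ht'
        · rw [normSq_right hs', norm_mid ht ht'] at hn
          have hs0 : s = al := by nlinarith [sq_nonneg (s - al)]
          subst hs0
          rw [bow_mid hs le_rfl, bow_mid ht ht'] at hst
          have h0 : pT1 ≠ 0 := by
            intro h
            have := norm_T1
            rw [h, norm_zero] at this
            norm_num at this
          have h1 := mul_left_cancel₀ h0 hst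
          have h2 := congrArg Complex.re h1
          rw [Complex.exp_ofReal_mul_I_re, Complex.exp_ofReal_mul_I_re] at h2
          exact Real.injOn_cos ⟨hs, al_lt_pi.le⟩ ⟨ht, ht'.trans al_lt_pi.le⟩ h2
        · rw [normSq_right hs', normSq_right ht'] at hn
          nlinarith

/-! ### Lengths -/

theorem variation_le {f : ℝ → ℂ} {a b : ℝ} (hab : a ≤ b)
    (h : ∀ x ∈ Set.Icc a b, ∀ y ∈ Set.Icc a b, dist (f x) (f y) ≤ dist x y) :
    eVariationOn f (Set.Icc a b) ≤ ENNReal.ofReal (b - a) := by
  have hl : LipschitzOnWith 1 f (Set.Icc a b) :=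
    LipschitzOnWith.of_dist_le_mul (by simpa using h)
  have h1 := hl.comp_eVariationOn_le (g := id) (s := Set.Icc a b) (fun x hx => hx)
  have h2 : eVariationOn (id : ℝ → ℝ) (Set.Icc a b) ≤ ENNReal.ofReal (b - a) := by
    have := (monotone_id.monotoneOn (Set.Icc a b)).eVariationOn_eq (Set.left_mem_Icc.2 hab)
      (Set.right_mem_Icc.2 hab)
    simp only [Set.inter_self, id] at this
    exact this.le
  have h3 : eVariationOn (f ∘ id) (Set.Icc a b) = eVariationOn f (Set.Icc a b) := rfl
  rw [h3] at h1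
  simpa using h1.trans (mul_le_mul_right h2 _)

theorem bow_length {p q : ℝ} (hp : 0 ≤ p) (hq : 0 ≤ q) :
    eVariationOn bow (Set.Icc (-p) (al + q)) ≤ ENNReal.ofReal (p + al + q) := by
  have hal := al_pos
  have e1 := eVariationOn.Icc_add_Icc bow (s := Set.univ) (a := -p) (b := 0) (c := al)
    (by linarith) hal.le (Set.mem_univ _)
  have e2 := eVariationOn.Icc_add_Icc bow (s := Set.univ) (a := -p) (b := al) (c := al + q)
    (by linarith) (by linarith) (Set.mem_univ _)
  simp only [Set.univ_inter] at e1 e2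
  rw [← e2, ← e1]
  have v1 : eVariationOn bow (Set.Icc (-p) 0) ≤ ENNReal.ofReal (0 - -p) := by
    refine variation_le (by linarith) fun x hx y hy => ?_
    rw [bow_left hx.2, bow_left hy.2, dist_eq_norm, ← mul_sub, norm_mul, norm_T1, one_mul]
    have : (1 + (x : ℂ) * I) - (1 + (y : ℂ) * I) = ((x - y : ℝ) : ℂ) * I := by push_cast; ring
    rw [this, norm_mul, Complex.norm_I, mul_one, Complex.norm_real, dist_eq_norm]
  have v2 : eVariationOn bow (Set.Icc 0 al) ≤ ENNReal.ofReal (al - 0) := by
    refine variation_le hal.le fun x hx y hy => ?_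
    rw [bow_mid hx.1 hx.2, bow_mid hy.1 hy.2, dist_eq_norm, ← mul_sub, norm_mul, norm_T1, one_mul]
    have : Complex.exp (x * I) - Complex.exp (y * I) =
        Complex.exp (y * I) * (Complex.exp (I * ((x - y : ℝ) : ℂ)) - 1) := by
      rw [mul_sub, ← Complex.exp_add, mul_one]
      congr 2
      push_cast; ring
    rw [this, norm_mul, Complex.norm_exp_ofReal_mul_I, one_mul, dist_eq_norm]
    exact Real.norm_exp_I_mul_ofReal_sub_one_le
  have v3 : eVariationOn bow (Set.Icc al (al + q)) ≤ ENNReal.ofReal (al + q - al) := by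
    refine variation_le (by linarith) fun x hx y hy => ?_
    rw [bow_right hx.1, bow_right hy.1, dist_eq_norm, ← mul_sub, norm_mul, norm_T2, one_mul]
    have : (1 + ((x - al : ℝ) : ℂ) * I) - (1 + ((y - al : ℝ) : ℂ) * I) =
        ((x - y : ℝ) : ℂ) * I := by push_cast; ring
    rw [this, norm_mul, Complex.norm_I, mul_one, Complex.norm_real, dist_eq_norm]
  calc _ ≤ ENNReal.ofReal (0 - -p) + ENNReal.ofReal (al - 0) + ENNReal.ofReal (al + q - al) :=
        add_le_add (add_le_add v1 v2) v3
    _ = ENNReal.ofReal (p + al + q) := by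
        rw [← ENNReal.ofReal_add (by linarith) (by linarith),
          ← ENNReal.ofReal_add (by linarith) (by linarith)]
        congr 1; ring

/-- The bow as an arc. -/
noncomputable def bowArc : PlaneArc where
  a := -(36/67)
  b := al + 551/799
  toFun := bow
  lt := by linarith [al_pos]
  cont := bow_cont.continuousOn
  inj := bow_inj.injOn

/-- The segment from `U` to `V`, parametrised by `[0, r]`. -/
noncomputable def segArc (U V : ℂ) (h : U ≠ V) (r : ℝ) (hr : 0 < r) : PlaneArc where
  a := 0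
  b := r
  toFun := fun s => U + ((s / r : ℝ) : ℂ) * (V - U)
  lt := hr
  cont := by fun_prop
  inj := by
    intro s _ t _ hst
    have h1 : ((s / r : ℝ) : ℂ) * (V - U) = ((t / r : ℝ) : ℂ) * (V - U) := add_left_cancel hst
    have h2 := mul_right_cancel₀ (sub_ne_zero.2 h.symm) h1
    have h3 : s / r = t / r := by exact_mod_cast h2
    field_simp at h3
    exact h3

theorem segArc_length {U V : ℂ} {h : U ≠ V} {r : ℝ} {hr : 0 < r} (hd : ‖V - U‖ ≤ r) :
    (segArc U V h r hr).length ≤ ENNReal.ofReal r := by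
  have := variation_le (f := (segArc U V h r hr).toFun) (a := 0) (b := r) hr.le
    (fun x _ y _ => by
      simp only [segArc]
      rw [dist_eq_norm]
      have e : U + ((x / r : ℝ) : ℂ) * (V - U) - (U + ((y / r : ℝ) : ℂ) * (V - U)) =
        (((x - y) / r : ℝ) : ℂ) * (V - U) := by push_cast; ring
      rw [e, norm_mul, Complex.norm_real, norm_div, dist_eq_norm, Real.norm_of_nonneg hr.le,
        div_mul_eq_mul_div, div_le_iff₀ hr]
      exact mul_le_mul_of_nonneg_left hd (norm_nonneg _))
  simpa [PlaneArc.length, segArc] using this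

theorem left_mem_segArc {U V : ℂ} {h : U ≠ V} {r : ℝ} {hr : 0 < r} :
    U ∈ (segArc U V h r hr).carrier :=
  ⟨0, ⟨le_rfl, hr.le⟩, by simp [segArc]⟩

theorem right_mem_segArc {U V : ℂ} {h : U ≠ V} {r : ℝ} {hr : 0 < r} :
    V ∈ (segArc U V h r hr).carrier :=
  ⟨r, ⟨hr.le, le_rfl⟩, by simp [segArc, hr.ne']⟩

theorem carrier_preconnected (A : PlaneArc) : IsPreconnected A.carrier :=
  isPreconnected_Icc.image _ A.cont

theorem pos_of_pos {S : Set ℂ} (hS : IsPreconnected S) {g : ℂ → ℝ} (hg : Continuous g)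
    (h0 : ∀ z ∈ S, g z ≠ 0) {u v : ℂ} (hu : u ∈ S) (hpos : 0 < g u) (hv : v ∈ S) : 0 < g v := by
  by_contra hneg
  obtain ⟨w, hw, hw0⟩ := hS.intermediate_value hv hu hg.continuousOn ⟨not_lt.mp hneg, hpos.le⟩
  exact h0 w hw hw0

/-! ### The three arcs -/

theorem XM_ne : pX ≠ pM := by
  intro h
  have := congrArg Complex.re h
  simp [pX, pM] at this
  norm_num at this

theorem CN_ne : pC ≠ pN := by
  intro h
  have := congrArg Complex.re h
  simp [pC, pN] at this
  norm_num at this

theorem norm_le_of_sq {z : ℂ} {r : ℝ} (hr : 0 ≤ r) (h : Complex.normSq z ≤ r ^ 2) : ‖z‖ ≤ r := by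
  rw [← Complex.sq_norm] at h
  exact le_of_sq_le_sq h hr

theorem XM_le : ‖pM - pX‖ ≤ 8722617/10000000 := by
  apply norm_le_of_sq (by norm_num)
  rw [Complex.normSq_apply]
  simp [pX, pM]
  norm_num

theorem CN_le : ‖pN - pC‖ ≤ 3226692/10000000 := by
  apply norm_le_of_sq (by norm_num)
  rw [Complex.normSq_apply]
  simp [pC, pN]
  norm_num

/-- The three arcs of the detector. -/
noncomputable def arcs : Fin 3 → PlaneArc :=
  ![bowArc, segArc pX pM XM_ne (8722617/10000000) (by norm_num),
    segArc pC pN CN_ne (3226692/10000000) (by norm_num)]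

theorem arcs_length : ∑ i, (arcs i).length < ENNReal.ofReal (479986/100000) := by
  rw [Fin.sum_univ_three]
  have h0 : (arcs 0).length ≤ ENNReal.ofReal (36/67 + al + 551/799) := by
    have := bow_length (p := 36/67) (q := 551/799) (by norm_num) (by norm_num)
    simpa [arcs, PlaneArc.length, bowArc] using this
  have h1 : (arcs 1).length ≤ ENNReal.ofReal (8722617/10000000) := by
    simpa [arcs] using segArc_length (h := XM_ne) (hr := by norm_num) XM_le
  have h2 : (arcs 2).length ≤ ENNReal.ofReal (3226692/10000000) := by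
    simpa [arcs] using segArc_length (h := CN_ne) (hr := by norm_num) CN_le
  have hal := al_le
  have hal' := al_pos
  calc (arcs 0).length + (arcs 1).length + (arcs 2).length
      ≤ ENNReal.ofReal (36/67 + al + 551/799) + ENNReal.ofReal (8722617/10000000) +
        ENNReal.ofReal (3226692/10000000) := add_le_add (add_le_add h0 h1) h2
    _ = ENNReal.ofReal (36/67 + al + 551/799 + 8722617/10000000 + 3226692/10000000) := by
        rw [← ENNReal.ofReal_add (by linarith) (by norm_num),
          ← ENNReal.ofReal_add (by linarith) (by norm_num)]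
    _ < ENNReal.ofReal (479986/100000) := by
        rw [ENNReal.ofReal_lt_ofReal_iff (by norm_num)]
        linarith

/-! ### The three arcs form a beam detector -/

theorem exists_sector (m : ℂ) :
    (0 ≤ cr pT2 m ∧ 0 ≤ cr m pA3) ∨ (0 ≤ cr pA3 m ∧ 0 ≤ cr m pA2) ∨
    (0 ≤ cr pA2 m ∧ 0 ≤ cr m pA1) ∨ (0 ≤ cr pA1 m ∧ 0 ≤ cr m pT1) ∨
    (0 ≤ cr pT1 m ∧ 0 ≤ cr m pT2) := by
  obtain ⟨x, y⟩ := m
  simp only [cr, pT1, pT2, pA1, pA2, pA3]
  by_contra hcon
  push Not at hcon
  obtain ⟨c1, c2, c3, c4, c5⟩ := hcon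
  rcases lt_or_ge (-320/1049 * y - -999/1049 * x) 0 with k1 | k1
  · rcases lt_or_ge (351/449 * y - -280/449 * x) 0 with k2 | k2
    · rcases lt_or_ge (1 * y - 0 * x) 0 with k3 | k3
      · rcases lt_or_ge (33/65 * y - 56/65 * x) 0 with k4 | k4
        · rcases lt_or_ge (-39/89 * y - 80/89 * x) 0 with k5 | k5
          · linarith
          · have := c5 k5; linarith
        · have := c4 k4; have := c5 (by linarith); linarith
      · have := c3 k3; have := c4 (by linarith); have := c5 (by linarith); linarith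
    · have := c2 k2; have := c3 (by linarith); have := c4 (by linarith)
      have := c5 (by linarith); linarith
  · have := c1 k1; have := c2 (by linarith); have := c3 (by linarith); have := c4 (by linarith)
    linarith

theorem P_mem : pP ∈ bowArc.carrier := by
  refine ⟨-(36/67), ⟨le_rfl, bowArc.lt.le⟩, ?_⟩
  change bow (-(36/67)) = pP
  rw [bow_left (by norm_num)]
  apply Complex.ext <;> simp [pT1, pP] <;> norm_num

theorem Q_mem : pQ ∈ bowArc.carrier := by
  refine ⟨al + 551/799, ⟨bowArc.lt.le, le_rfl⟩, ?_⟩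
  change bow (al + 551/799) = pQ
  rw [bow_right (by linarith)]
  have : al + 551/799 - al = 551/799 := by ring
  rw [this]
  apply Complex.ext <;> simp [pT2, pQ] <;> norm_num

theorem arc_mem {m : ℂ} (hm : ip m m = 1) (h1 : 0 ≤ cr pT1 m) (h2 : 0 ≤ cr m pT2) :
    m ∈ bowArc.carrier := by
  -- the rotated point
  set w : ℂ := m * (starRingEnd ℂ) pT1 with hw
  have hT : pT1 * (starRingEnd ℂ) pT1 = 1 := by
    rw [Complex.mul_conj, ← Complex.sq_norm, norm_T1]; norm_num
  have hmn : ‖m‖ = 1 := by
    have : ‖m‖ ^ 2 = 1 := by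
      rw [Complex.sq_norm, Complex.normSq_apply]; exact hm
    exact (pow_eq_one_iff_of_nonneg (norm_nonneg _) two_ne_zero).1 this
  have hwn : ‖w‖ = 1 := by
    rw [hw, norm_mul, Complex.norm_conj, norm_T1, hmn, one_mul]
  set s : ℝ := Complex.arg w with hs
  have hexp : Complex.exp (s * I) = w := by
    have := Complex.norm_mul_exp_arg_mul_I w
    rwa [hwn, Complex.ofReal_one, one_mul] at this
  have him : w.im = cr pT1 m := by
    rw [hw]; simp [cr]; ring
  have hs0 : 0 ≤ s := by
    rw [hs, Complex.arg_nonneg_iff, him]; exact h1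
  have hspi : s ≤ Real.pi := Complex.arg_le_pi w
  have hmeq : m = pT1 * Complex.exp (s * I) := by
    rw [hexp, hw]
    calc m = m * (pT1 * (starRingEnd ℂ) pT1) := by rw [hT, mul_one]
      _ = pT1 * (m * (starRingEnd ℂ) pT1) := by ring
  have hsin : Real.sin (al - s) = cr m pT2 := by
    have hcr : cr m pT2 = ((starRingEnd ℂ) m * pT2).im := by simp [cr]; ring
    rw [hcr, hmeq, ← T1_exp, map_mul]
    have : (starRingEnd ℂ) pT1 * (starRingEnd ℂ) (Complex.exp (s * I)) *
        (pT1 * Complex.exp (al * I)) = Complex.exp (((al - s : ℝ) : ℂ) * I) := by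
      have e1 : (starRingEnd ℂ) (Complex.exp (s * I)) = Complex.exp (-(s * I)) := by
        rw [← Complex.exp_conj, map_mul, Complex.conj_I, Complex.conj_ofReal, mul_neg]
      rw [e1]
      calc (starRingEnd ℂ) pT1 * Complex.exp (-(s * I)) * (pT1 * Complex.exp (al * I))
          = (pT1 * (starRingEnd ℂ) pT1) * (Complex.exp (-(s * I)) * Complex.exp (al * I)) := by
            ring
        _ = _ := by
            rw [hT, one_mul, ← Complex.exp_add]
            congr 1; push_cast; ring
    rw [this, Complex.exp_ofReal_mul_I_im]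
  have hsal : s ≤ al := by
    by_contra hlt
    push Not at hlt
    have : Real.sin (s - al) > 0 :=
      Real.sin_pos_of_pos_of_lt_pi (by linarith) (by linarith [al_pos])
    have h3 : Real.sin (al - s) = - Real.sin (s - al) := by rw [← Real.sin_neg]; ring_nf
    linarith
  refine ⟨s, ⟨?_, ?_⟩, ?_⟩
  · change -(36/67) ≤ s
    linarith
  · change s ≤ al + 551/799
    linarith
  · change bow s = m
    rw [bow_mid hs0 hsal, ← hmeq]

/-- Every support line of the circle is reached by the hull of the arcs. -/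
theorem support {m : ℂ} (hm : ip m m = 1) :
    ∃ w, (w ∈ bowArc.carrier ∨ w = pX ∨ w = pC) ∧ 1 ≤ ip m w := by
  rcases exists_sector m with ⟨h1, h2⟩ | ⟨h1, h2⟩ | ⟨h1, h2⟩ | ⟨h1, h2⟩ | ⟨h1, h2⟩
  · have := tangent_sector (A := pT2) (B := pA3) (m := m) (by norm_num [ip, pT2])
      (by norm_num [ip, pA3]) hm h1 h2 (by norm_num [cr, pT2, pA3]) (by norm_num [ip, pT2, pA3])
    refine ⟨pQ, Or.inl Q_mem, ?_⟩
    simp only [ip, pT2, pA3, pQ] at this ⊢
    linarith
  · have := tangent_sector (A := pA3) (B := pA2) (m := m) (by norm_num [ip, pA3])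
      (by norm_num [ip, pA2]) hm h1 h2 (by norm_num [cr, pA3, pA2]) (by norm_num [ip, pA3, pA2])
    refine ⟨pC, Or.inr (Or.inr rfl), ?_⟩
    simp only [ip, pA2, pA3, pC] at this ⊢
    linarith
  · have := tangent_sector (A := pA2) (B := pA1) (m := m) (by norm_num [ip, pA2])
      (by norm_num [ip, pA1]) hm h1 h2 (by norm_num [cr, pA2, pA1]) (by norm_num [ip, pA2, pA1])
    refine ⟨pX, Or.inr (Or.inl rfl), ?_⟩
    simp only [ip, pA2, pA1, pX] at this ⊢
    linarith
  · have := tangent_sector (A := pA1) (B := pT1) (m := m) (by norm_num [ip, pA1])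
      (by norm_num [ip, pT1]) hm h1 h2 (by norm_num [cr, pA1, pT1]) (by norm_num [ip, pA1, pT1])
    refine ⟨pP, Or.inl P_mem, ?_⟩
    simp only [ip, pA1, pT1, pP] at this ⊢
    linarith
  · exact ⟨m, Or.inl (arc_mem hm h1 h2), hm.ge⟩

theorem no_miss {n : ℂ} (hn : ip n n = 1) {c : ℝ} (hc : -1 ≤ c)
    (h0 : ∀ i, ∀ z ∈ (arcs i).carrier, ip n z ≠ c) (hT : c < ip n pP) : False := by
  set g : ℂ → ℝ := fun z => ip n z - c with hg
  have hgc : Continuous g := by
    unfold g ip; fun_prop
  have hne : ∀ i, ∀ z ∈ (arcs i).carrier, g z ≠ 0 := fun i z hz h => h0 i z hz (by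
    have : ip n z - c = 0 := h
    linarith)
  have hbow : ∀ z ∈ bowArc.carrier, 0 < g z := fun z hz =>
    pos_of_pos (carrier_preconnected bowArc) hgc (fun w hw => hne 0 w hw) P_mem
      (by simp only [hg]; linarith) hz
  have hP := hbow _ P_mem
  have hQ := hbow _ Q_mem
  have hM : 0 < g pM := by
    simp only [hg, ip, pP, pQ, pM] at hP hQ ⊢
    linarith
  have hX : 0 < g pX := pos_of_pos
    (carrier_preconnected (segArc pX pM XM_ne (8722617/10000000) (by norm_num))) hgc
    (fun w hw => hne 1 w hw) right_mem_segArc hM left_mem_segArc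
  have hN : 0 < g pN := by
    simp only [hg, ip, pX, pQ, pN] at hX hQ ⊢
    linarith
  have hC : 0 < g pC := pos_of_pos
    (carrier_preconnected (segArc pC pN CN_ne (3226692/10000000) (by norm_num))) hgc
    (fun w hw => hne 2 w hw) right_mem_segArc hN left_mem_segArc
  obtain ⟨w, hw, hw1⟩ := support (m := -n) (by simpa [ip] using hn)
  have hgw : 0 < g w := by
    rcases hw with hw | rfl | rfl
    · exact hbow w hw
    · exact hX
    · exact hC
  have e : ip (-n) w = - ip n w := by simp [ip]; ring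
  rw [e] at hw1
  simp only [hg] at hgw
  linarith

theorem arcs_detector : IsBeamDetector (⋃ i, (arcs i).carrier) := by
  intro l hl ⟨z0, hz0, hz0n⟩
  obtain ⟨v, hv, hspan⟩ := finrank_eq_one_iff'.1 hl
  have hv0 : (v : ℂ) ≠ 0 := fun h => hv (Subtype.ext h)
  by_contra hcon
  push Not at hcon
  set r : ℝ := ‖(v : ℂ)‖ with hr
  have hr0 : 0 < r := norm_pos_iff.2 hv0
  set n : ℂ := ⟨-(v : ℂ).im / r, (v : ℂ).re / r⟩ with hn
  have hr2 : (v : ℂ).re ^ 2 + (v : ℂ).im ^ 2 = r ^ 2 := by
    rw [hr, Complex.sq_norm, Complex.normSq_apply]; ring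
  have hnn : ip n n = 1 := by
    simp only [ip, hn]
    field_simp
    linarith
  have hmem : ∀ z : ℂ, ip n z = ip n z0 → z ∈ l := by
    intro z hz
    -- `z - z0` is a multiple of `v`
    have h1 : (v : ℂ).re * (z.im - z0.im) = (v : ℂ).im * (z.re - z0.re) := by
      simp only [ip, hn] at hz
      field_simp at hz
      linarith
    set t : ℝ := ((v : ℂ).re * (z.re - z0.re) + (v : ℂ).im * (z.im - z0.im)) / r ^ 2 with ht
    have h2 : z - z0 = (t : ℂ) * (v : ℂ) := by
      have hr2' : r ^ 2 ≠ 0 := by positivity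
      apply Complex.ext
      · rw [Complex.sub_re, Complex.re_ofReal_mul, ht, div_mul_eq_mul_div, eq_div_iff hr2', ← hr2]
        linear_combination (-(v : ℂ).im) * h1
      · rw [Complex.sub_im, Complex.im_ofReal_mul, ht, div_mul_eq_mul_div, eq_div_iff hr2', ← hr2]
        linear_combination (v : ℂ).re * h1
    have h3 : z - z0 ∈ l.direction := by
      rw [h2]
      have : (t • v : l.direction).1 = (t : ℂ) * (v : ℂ) := by simp
      rw [← this]
      exact (t • v : l.direction).2
    have h4 := AffineSubspace.vadd_mem_of_mem_direction h3 hz0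
    simpa using h4
  have hcs : |ip n z0| ≤ 1 := by
    have hz : ip z0 z0 = 1 := by
      have : ‖z0‖ ^ 2 = 1 := by rw [hz0n]; norm_num
      rw [Complex.sq_norm, Complex.normSq_apply] at this
      exact this
    rw [abs_le]
    unfold ip at *
    constructor
    · nlinarith [sq_nonneg (n.re + z0.re), sq_nonneg (n.im + z0.im)]
    · nlinarith [sq_nonneg (n.re - z0.re), sq_nonneg (n.im - z0.im)]
  have hne : ∀ i, ∀ z ∈ (arcs i).carrier, ip n z ≠ ip n z0 := fun i z hz h =>
    hcon z (hmem z h) (Set.mem_iUnion.2 ⟨i, hz⟩)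
  rcases lt_or_ge (ip n z0) (ip n pP) with h | h
  · exact no_miss hnn (abs_le.1 hcs).1 hne h
  · have h' : ip n pP < ip n z0 := lt_of_le_of_ne h (hne 0 _ P_mem)
    have hneg : ∀ z, ip (-n) z = - ip n z := fun z => by simp [ip]; ring
    refine no_miss (n := -n) (c := - ip n z0) (by simpa [ip] using hnn) ?_ ?_ ?_
    · linarith [(abs_le.1 hcs).2]
    · intro i z hz h1
      rw [hneg] at h1
      exact hne i z hz (by linarith)
    · rw [hneg]; linarith

theorem main : detectorConstant 3 < ENNReal.ofReal (479986/100000) :=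
  (iInf₂_le arcs arcs_detector).trans_lt arcs_length

end Pool.Agent.Work.MP_655153_co
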