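import Mathlib

/-!
# Beam detectors for the unit circle

The plane is `ℂ` with its usual distance. A beam detector for the unit circle is a set which meets
every line meeting the circle; `detectorConstant n` is the infimum of the lengths of `n`-arcs which
are beam detectors.
-/

open scoped ENNReal

namespace Pool.Agent.Work.MP_655153_co

/-- `S` is a beam detector for the unit circle: it meets every line (one-dimensional affine
subspace of the plane) which meets the circle. -/
def IsBeamDetector (S : Set ℂ) : Prop :=
  ∀ l : AffineSubspace ℝ ℂ, Module.finrank ℝ l.direction = 1 →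
    (∃ z ∈ l, ‖z‖ = 1) → ∃ z ∈ l, z ∈ S

/-- An arc: an injective continuous image of a compact interval `[a, b]`, `a < b`. -/
structure PlaneArc where
  /-- left end of the parameter interval -/
  a : ℝ
  /-- right end of the parameter interval -/
  b : ℝ
  /-- the parametrisation -/
  toFun : ℝ → ℂ
  lt : a < b
  cont : ContinuousOn toFun (Set.Icc a b)
  inj : Set.InjOn toFun (Set.Icc a b)

/-- The set of points of an arc. -/
def PlaneArc.carrier (A : PlaneArc) : Set ℂ := A.toFun '' Set.Icc A.a A.b

/-- The length of an arc: the total variation of its parametrisation. -/
noncomputable def PlaneArc.length (A : PlaneArc) : ℝ≥0∞ :=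
  eVariationOn A.toFun (Set.Icc A.a A.b)

/-- `L_n`: the infimum of the lengths of the `n`-arcs which are beam detectors, the length of an
`n`-arc being the sum of the lengths of its `n` arcs. -/
noncomputable def detectorConstant (n : ℕ) : ℝ≥0∞ :=
  ⨅ (A : Fin n → PlaneArc) (_ : IsBeamDetector (⋃ i, (A i).carrier)), ∑ i, (A i).length

end Pool.Agent.Work.MP_655153_co
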